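import Pool.Agent.Lib.MP_abd978_an.UN.Interfaces

/-!
# Project UNW, module OSCP: oscillating test functions
-/

set_option autoImplicit false

open MeasureTheory Metric Set Filter Topology ContDiff
open scoped Gradient RealInnerProductSpace NNReal ENNReal

namespace Pool.Agent.Lib.MP_abd978_an.UN.H36

/-- a saw tooth function of period `3` with slopes `2, -1, -1` -/
noncomputable def saw (t : ℝ) : ℝ :=
  min (2 * (3 * Int.fract (t / 3))) (3 - 3 * Int.fract (t / 3))

/-- its slope -/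
noncomputable def sl (t : ℝ) : ℝ := if Int.fract (t / 3) < 1 / 3 then 2 else -1

theorem saw_nonneg (t : ℝ) : 0 ≤ saw t := by
  have h1 := Int.fract_nonneg (t / 3)
  have h2 := (Int.fract_lt_one (t / 3)).le
  exact le_min (by linarith) (by linarith)

theorem saw_le (t : ℝ) : saw t ≤ 2 := by
  unfold saw
  rcases le_total (Int.fract (t / 3)) (1 / 3) with h | h
  · exact (min_le_left _ _).trans (by linarith)
  · exact (min_le_right _ _).trans (by linarith)

theorem saw_lip_aux {t t' : ℝ} (h : t ≤ t') : |saw t - saw t'| ≤ 2 * (t' - t) := by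
  have e1 : t = 3 * ⌊t / 3⌋ + 3 * Int.fract (t / 3) := by
    have := Int.floor_add_fract (t / 3)
    linarith
  have e2 : t' = 3 * ⌊t' / 3⌋ + 3 * Int.fract (t' / 3) := by
    have := Int.floor_add_fract (t' / 3)
    linarith
  have hf : ⌊t / 3⌋ ≤ ⌊t' / 3⌋ := Int.floor_le_floor (by linarith)
  have a1 := Int.fract_nonneg (t / 3)
  have a2 := (Int.fract_lt_one (t / 3)).le
  have b1 := Int.fract_nonneg (t' / 3)
  have b2 := (Int.fract_lt_one (t' / 3)).le
  rcases hf.eq_or_lt with hf | hf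
  · have hd : t' - t = 3 * Int.fract (t' / 3) - 3 * Int.fract (t / 3) := by
      rw [hf] at e1
      linarith
    rw [hd]
    unfold saw
    have h3 : (0 : ℝ) ≤ Int.fract (t' / 3) - Int.fract (t / 3) := by linarith
    refine (abs_min_sub_min_le_max _ _ _ _).trans (max_le ?_ ?_)
    · rw [abs_sub_comm, abs_of_nonneg (by linarith)]
      linarith
    · rw [abs_of_nonneg (by linarith)]
      linarith
  · have hg : (⌊t / 3⌋ : ℝ) + 1 ≤ ⌊t' / 3⌋ := by exact_mod_cast hf
    have s1 := saw_nonneg t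
    have s2 := saw_nonneg t'
    have s3 : saw t ≤ 3 - 3 * Int.fract (t / 3) := min_le_right _ _
    have s4 : saw t' ≤ 2 * (3 * Int.fract (t' / 3)) := min_le_left _ _
    rw [abs_le]
    constructor <;> linarith

theorem saw_lip : LipschitzWith 2 saw := by
  refine LipschitzWith.of_dist_le_mul fun t t' => ?_
  rw [Real.dist_eq, Real.dist_eq]
  rcases le_total t t' with h | h
  · rw [abs_sub_comm t t', abs_of_nonneg (sub_nonneg.2 h)]
    simpa using saw_lip_aux h
  · rw [abs_sub_comm (saw t), abs_of_nonneg (sub_nonneg.2 h)]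
    simpa using saw_lip_aux h

theorem saw_deriv {t : ℝ} (h : ∀ m : ℤ, t ≠ m) : HasDerivAt saw (sl t) t := by
  set m := ⌊t / 3⌋ with hm
  have e1 : t = 3 * m + 3 * Int.fract (t / 3) := by
    have := Int.floor_add_fract (t / 3)
    linarith
  have h0 : Int.fract (t / 3) ≠ 0 := by
    intro h0
    refine h (3 * m) ?_
    rw [h0] at e1
    push_cast
    linarith
  have h1 : Int.fract (t / 3) ≠ 1 / 3 := by
    intro h0
    refine h (3 * m + 1) ?_
    rw [h0] at e1
    push_cast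
    linarith
  have a1 := lt_of_le_of_ne (Int.fract_nonneg (t / 3)) (Ne.symm h0)
  have a2 := Int.fract_lt_one (t / 3)
  have hfl : ∀ᶠ s : ℝ in 𝓝 t, Int.fract (s / 3) = s / 3 - m := by
    have : Ioo (3 * (m : ℝ)) (3 * m + 3) ∈ 𝓝 t := Ioo_mem_nhds (by linarith) (by linarith)
    filter_upwards [this] with s hs
    have hfl : ⌊s / 3⌋ = m := by
      rw [Int.floor_eq_iff]
      constructor
      · linarith [hs.1]
      · linarith [hs.2]
    rw [Int.fract, hfl]
  unfold sl
  split_ifs with hlt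
  · have hev : saw =ᶠ[𝓝 t] fun s => 2 * (s - 3 * m) := by
      have : Iio (3 * (m : ℝ) + 1) ∈ 𝓝 t := Iio_mem_nhds (by linarith)
      filter_upwards [hfl, this] with s hs hs'
      unfold saw
      rw [hs, min_eq_left]
      · ring
      · have := hs'.out
        linarith
    have hd : HasDerivAt (fun s : ℝ => 2 * (s - 3 * m)) (2 * 1) t :=
      ((hasDerivAt_id t).sub_const _).const_mul 2
    rw [mul_one] at hd
    exact hd.congr_of_eventuallyEq hev
  · have hgt : 1 / 3 < Int.fract (t / 3) := lt_of_le_of_ne (not_lt.1 hlt) (Ne.symm h1)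
    have hev : saw =ᶠ[𝓝 t] fun s => 3 - (s - 3 * m) := by
      have : Ioi (3 * (m : ℝ) + 1) ∈ 𝓝 t := Ioi_mem_nhds (by linarith)
      filter_upwards [hfl, this] with s hs hs'
      unfold saw
      rw [hs, min_eq_right]
      · ring
      · have := hs'.out
        linarith
    have hd : HasDerivAt (fun s : ℝ => 3 - (s - 3 * m)) (-1) t :=
      ((hasDerivAt_id t).sub_const _).const_sub 3
    exact hd.congr_of_eventuallyEq hev

/-- exactly one of three consecutive slopes is `2` -/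
theorem sl_three {F : Type} [AddCommMonoid F] (G : ℝ → F) (t : ℝ) :
    G (sl t) + G (sl (t + 1)) + G (sl (t + 2)) = G 2 + (G (-1) + G (-1)) := by
  set x := t / 3 with hx
  have e1 : (t + 1) / 3 = x + 1 / 3 := by rw [hx]; ring
  have e2 : (t + 2) / 3 = x + 2 / 3 := by rw [hx]; ring
  have hfl := Int.floor_add_fract x
  have a1 := Int.fract_nonneg x
  have a2 := Int.fract_lt_one x
  have fr : ∀ (y : ℝ) (m : ℤ), 0 ≤ y - m → y - m < 1 → Int.fract y = y - m := by
    intro y m h1 h2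
    have : ⌊y⌋ = m := by
      rw [Int.floor_eq_iff]
      constructor <;> linarith
    rw [Int.fract, this]
  unfold sl
  rw [e1, e2]
  rcases lt_or_ge (Int.fract x) (1 / 3) with h | h
  · have f1 := fr (x + 1 / 3) ⌊x⌋ (by linarith) (by linarith)
    have f2 := fr (x + 2 / 3) ⌊x⌋ (by linarith) (by linarith)
    rw [if_pos h, if_neg (by rw [f1]; linarith), if_neg (by rw [f2]; linarith), add_assoc]
  · rcases lt_or_ge (Int.fract x) (2 / 3) with h' | h'
    · have f1 := fr (x + 1 / 3) ⌊x⌋ (by linarith) (by linarith)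
      have f2 := fr (x + 2 / 3) (⌊x⌋ + 1) (by push_cast; linarith) (by push_cast; linarith)
      push_cast at f2
      rw [if_neg (not_lt.2 h), if_neg (by rw [f1]; linarith), if_pos (by rw [f2]; linarith)]
      abel
    · have f1 := fr (x + 1 / 3) (⌊x⌋ + 1) (by push_cast; linarith) (by push_cast; linarith)
      have f2 := fr (x + 2 / 3) (⌊x⌋ + 1) (by push_cast; linarith) (by push_cast; linarith)
      push_cast at f1 f2
      rw [if_neg (not_lt.2 h), if_pos (by rw [f1]; linarith), if_neg (by rw [f2]; linarith)]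
      abel

theorem sl_mem (t : ℝ) : sl t = 2 ∨ sl t = -1 := by
  unfold sl
  split_ifs
  · exact Or.inl rfl
  · exact Or.inr rfl

/-- the oscillating function -/
noncomputable def oss {n : ℕ} (ξ : E n) (k : ℕ) (j : ℝ) (x : E n) : ℝ :=
  saw (((k : ℝ) + 1) * ⟪ξ, x⟫ + j) / ((k : ℝ) + 1)

theorem oss_bound {n : ℕ} (ξ : E n) (k : ℕ) (j : ℝ) (x : E n) :
    |oss ξ k j x| ≤ 2 / ((k : ℝ) + 1) := by
  have hk : (0 : ℝ) < (k : ℝ) + 1 := by positivity
  unfold oss
  rw [abs_div, abs_of_pos hk, abs_of_nonneg (saw_nonneg _)]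
  exact div_le_div_of_nonneg_right (saw_le _) hk.le

theorem oss_lip {n : ℕ} (ξ : E n) (k : ℕ) (j : ℝ) (x y : E n) :
    |oss ξ k j x - oss ξ k j y| ≤ 2 * ‖ξ‖ * dist x y := by
  have hk : (0 : ℝ) < (k : ℝ) + 1 := by positivity
  have h1 := saw_lip.dist_le_mul (((k : ℝ) + 1) * ⟪ξ, x⟫ + j) (((k : ℝ) + 1) * ⟪ξ, y⟫ + j)
  rw [Real.dist_eq, Real.dist_eq] at h1
  have h2 : ((k : ℝ) + 1) * ⟪ξ, x⟫ + j - (((k : ℝ) + 1) * ⟪ξ, y⟫ + j) =
      ((k : ℝ) + 1) * ⟪ξ, x - y⟫ := by
    rw [inner_sub_right]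
    ring
  rw [h2, abs_mul, abs_of_pos hk] at h1
  have h3 : |⟪ξ, x - y⟫| ≤ ‖ξ‖ * dist x y := by
    rw [dist_eq_norm]
    exact abs_real_inner_le_norm _ _
  unfold oss
  rw [← sub_div, abs_div, abs_of_pos hk, div_le_iff₀ hk]
  have h4 : ((2 : ℝ≥0) : ℝ) = 2 := rfl
  rw [h4] at h1
  nlinarith [mul_le_mul_of_nonneg_left h3 hk.le]

theorem oss_grad {n : ℕ} (ξ : E n) (k : ℕ) (j : ℝ) (x : E n)
    (h : ∀ m : ℤ, ((k : ℝ) + 1) * ⟪ξ, x⟫ + j ≠ m) :
    DifferentiableAt ℝ (oss ξ k j) x ∧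
      ∇ (oss ξ k j) x = sl (((k : ℝ) + 1) * ⟪ξ, x⟫ + j) • ξ := by
  have hk : ((k : ℝ) + 1) ≠ 0 := by positivity
  have h1 := saw_deriv h
  have h2 : HasFDerivAt (fun y : E n => ((k : ℝ) + 1) * ⟪ξ, y⟫ + j)
      (((k : ℝ) + 1) • (innerSL ℝ ξ)) x := by
    have h3 : HasFDerivAt (fun y : E n => ⟪ξ, y⟫) (innerSL ℝ ξ) x :=
      (innerSL ℝ ξ).hasFDerivAt
    exact (h3.const_mul _).add_const _
  have h4 := h1.comp_hasFDerivAt x h2
  have h5 : HasFDerivAt (oss ξ k j)
      (((k : ℝ) + 1)⁻¹ • (sl (((k : ℝ) + 1) * ⟪ξ, x⟫ + j) • (((k : ℝ) + 1) • (innerSL ℝ ξ)))) x := by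
    have h6 := h4.const_mul (((k : ℝ) + 1)⁻¹)
    refine h6.congr_of_eventuallyEq (Eventually.of_forall fun y => ?_)
    show saw _ / _ = _ * saw _
    rw [div_eq_inv_mul]
  refine ⟨h5.differentiableAt, ?_⟩
  rw [grad_of_hasFDerivAt h5, smul_smul, smul_smul]
  have h7 : ((k : ℝ) + 1)⁻¹ * (sl (((k : ℝ) + 1) * ⟪ξ, x⟫ + j) * ((k : ℝ) + 1)) =
      sl (((k : ℝ) + 1) * ⟪ξ, x⟫ + j) := by
    field_simp
  rw [mul_assoc, h7, map_smulₛₗ]
  congr 1
  exact (InnerProductSpace.toDual ℝ (E n)).symm_apply_apply ξ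

theorem oss_ae {n : ℕ} (ξ : E n) (hξ : ξ ≠ 0) (k : ℕ) (j : ℝ) :
    ∀ᵐ x : E n, ∀ m : ℤ, ((k : ℝ) + 1) * ⟪ξ, x⟫ + j ≠ m := by
  have hk : ((k : ℝ) + 1) ≠ 0 := by positivity
  have hs : ({t : ℝ | ∀ m : ℤ, ((k : ℝ) + 1) * t + j ≠ m}ᶜ).Countable := by
    refine (Set.countable_range fun m : ℤ => ((m : ℝ) - j) / ((k : ℝ) + 1)).mono ?_
    intro t ht
    simp only [mem_compl_iff, mem_ofPred_eq, not_forall, not_not] at ht
    obtain ⟨m, hm⟩ := ht
    refine ⟨m, ?_⟩
    show ((m : ℝ) - j) / ((k : ℝ) + 1) = t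
    rw [← hm]
    field_simp
    ring
  have hsurj : Function.Surjective ((innerSL ℝ ξ : E n →L[ℝ] ℝ) : E n →ₗ[ℝ] ℝ) := by
    intro t
    refine ⟨(t / ⟪ξ, ξ⟫) • ξ, ?_⟩
    have h1 : ⟪ξ, ξ⟫ ≠ 0 := inner_self_ne_zero.2 hξ
    show ⟪ξ, (t / ⟪ξ, ξ⟫) • ξ⟫ = t
    rw [real_inner_smul_right]
    field_simp
  have hm : MeasurableSet {t : ℝ | ∀ m : ℤ, ((k : ℝ) + 1) * t + j ≠ m} := by
    have := hs.measurableSet.compl
    rwa [compl_compl] at this
  have h2 := (ae_comp_linearMap_mem_iff ((innerSL ℝ ξ : E n →L[ℝ] ℝ) : E n →ₗ[ℝ] ℝ)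
    (volume : Measure (E n)) (volume : Measure ℝ) hsurj hm).2 ?_
  · exact h2
  · have h3 := hs.ae_notMem volume
    filter_upwards [h3] with t ht
    simpa using ht

theorem osc_lipC {n : ℕ} {Ω : Set (E n)} {χ : E n → ℝ} (hχ : LipC Ω χ)
    (h01 : ∀ x, χ x ∈ Icc (0 : ℝ) 1) (ξ : E n) (k : ℕ) (j : ℝ) :
    LipC Ω fun x => χ x * oss ξ k j x := by
  obtain ⟨⟨K, hK⟩, h2, h3⟩ := hχ
  refine ⟨⟨K * 2 + 2 * ‖ξ‖₊, LipschitzWith.of_dist_le_mul fun x y => ?_⟩, h2.mul_right,
    (tsupport_mul_subset_left).trans h3⟩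
  have a1 := hK.dist_le_mul x y
  rw [Real.dist_eq] at a1
  have a2 := oss_lip ξ k j x y
  have a3 := oss_bound ξ k j x
  have a4 : 2 / ((k : ℝ) + 1) ≤ 2 := by
    rw [div_le_iff₀ (by positivity)]
    have : (0 : ℝ) ≤ k := Nat.cast_nonneg k
    linarith
  rw [Real.dist_eq]
  have e : χ x * oss ξ k j x - χ y * oss ξ k j y =
      (χ x - χ y) * oss ξ k j x + χ y * (oss ξ k j x - oss ξ k j y) := by ring
  rw [e]
  refine (abs_add_le _ _).trans ?_
  rw [abs_mul, abs_mul]
  have b1 : |χ x - χ y| * |oss ξ k j x| ≤ (K * dist x y) * 2 :=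
    mul_le_mul a1 (a3.trans a4) (abs_nonneg _) (by positivity)
  have b2 : |χ y| * |oss ξ k j x - oss ξ k j y| ≤ 1 * (2 * ‖ξ‖ * dist x y) := by
    refine mul_le_mul ?_ a2 (abs_nonneg _) zero_le_one
    rw [abs_of_nonneg (h01 y).1]
    exact (h01 y).2
  have e2 : ((K * 2 + 2 * ‖ξ‖₊ : ℝ≥0) : ℝ) * dist x y =
      (K * dist x y) * 2 + 1 * (2 * ‖ξ‖ * dist x y) := by
    push_cast
    ring
  rw [e2]
  exact add_le_add b1 b2

theorem op_zero {n : ℕ} {p α β : ℝ} {a : E n → E n → E n} (hp : 1 < p)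
    (hop : Op p volume a α β) (x : E n) : a x 0 = 0 := by
  have h := hop.bdd x 0
  rw [norm_zero, Real.zero_rpow (by linarith), mul_zero] at h
  exact norm_le_zero_iff.1 h

theorem slopes {n : ℕ} {p α β : ℝ} {a : E n → E n → E n} (hp : 1 < p)
    (hop : Op p volume a α β) (x ξ d : E n) (c : ℝ) (hc : 0 ≤ c) :
    ⟪a x (c • ((2 : ℝ) • ξ)), d⟫ + (⟪a x (c • ((-1 : ℝ) • ξ)), d⟫ +
      ⟪a x (c • ((-1 : ℝ) • ξ)), d⟫) = (2 ^ (p - 1) - 2) * (c ^ (p - 1) * ⟪a x ξ, d⟫) := by
  rcases hc.eq_or_lt with h0 | h0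
  · rw [← h0, Real.zero_rpow (by linarith)]
    simp [op_zero hp hop]
  · have e1 : a x (c • ((2 : ℝ) • ξ)) = (2 ^ (p - 1) * c ^ (p - 1)) • a x ξ := by
      rw [smul_smul, hop.hom x (c * 2) ξ (by positivity), Real.mul_rpow hc (by norm_num),
        mul_comm (c ^ (p - 1))]
    have e2 : a x (c • ((-1 : ℝ) • ξ)) = -(c ^ (p - 1) • a x ξ) := by
      rw [neg_one_smul, smul_neg, hop.neg, hop.hom x c ξ h0]
    rw [e1, e2, inner_neg_left, real_inner_smul_left, real_inner_smul_left]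
    ring

theorem osc_identity (hls : LsobStatement) {n : ℕ} {p α β R : ℝ} {a : E n → E n → E n}
    {D : E n → E n} (hp : 2 < p) (hop : Op p volume a α β)
    (hD : MemLp D (ENNReal.ofReal p) volume)
    (hort : ∀ (u : E n → ℝ) (U : E n → E n), H0 volume p (ball 0 R) u U →
      ∫ x, ⟪a x (U x), D x⟫ = 0) (ξ : E n) (hξ : ξ ≠ 0) (χ : E n → ℝ)
    (hχ : LipC (ball 0 R) χ) (h01 : ∀ x, χ x ∈ Icc (0 : ℝ) 1) :
    ∫ x, (χ x) ^ (p - 1) * ⟪a x ξ, D x⟫ = 0 := by
  have hp1 : 1 < p := by linarith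
  obtain ⟨⟨K, hK⟩, hcs, hts⟩ := id hχ
  -- the test functions
  set u : ℕ → ℝ → E n → ℝ := fun k j x => χ x * oss ξ k j x with hu
  have hz : ∀ k j, ∫ x, ⟪a x (∇ (u k j) x), D x⟫ = 0 := fun k j =>
    hort _ _ (hls n p (ball 0 R) (u k j) hp1 isOpen_ball (osc_lipC hχ h01 ξ k j))
  set Λ : ℝ≥0 := K * 2 + 2 * ‖ξ‖₊ with hΛ
  have hlip : ∀ k j, LipschitzWith Λ (u k j) := by
    intro k j
    refine LipschitzWith.of_dist_le_mul fun x y => ?_
    have a1 := hK.dist_le_mul x y
    rw [Real.dist_eq] at a1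
    have a2 := oss_lip ξ k j x y
    have a3 := oss_bound ξ k j x
    have a4 : 2 / ((k : ℝ) + 1) ≤ 2 := by
      rw [div_le_iff₀ (by positivity)]
      have : (0 : ℝ) ≤ k := Nat.cast_nonneg k
      linarith
    rw [Real.dist_eq]
    have e : u k j x - u k j y =
        (χ x - χ y) * oss ξ k j x + χ y * (oss ξ k j x - oss ξ k j y) := by
      simp only [hu]
      ring
    rw [e]
    refine (abs_add_le _ _).trans ?_
    rw [abs_mul, abs_mul]
    have b1 : |χ x - χ y| * |oss ξ k j x| ≤ (K * dist x y) * 2 :=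
      mul_le_mul a1 (a3.trans a4) (abs_nonneg _) (by positivity)
    have b2 : |χ y| * |oss ξ k j x - oss ξ k j y| ≤ 1 * (2 * ‖ξ‖ * dist x y) := by
      refine mul_le_mul ?_ a2 (abs_nonneg _) zero_le_one
      rw [abs_of_nonneg (h01 y).1]
      exact (h01 y).2
    have e2 : (Λ : ℝ) * dist x y =
        (K * dist x y) * 2 + 1 * (2 * ‖ξ‖ * dist x y) := by
      rw [hΛ]
      push_cast
      ring
    rw [e2]
    exact add_le_add b1 b2
  have hgr : ∀ k j x, ‖∇ (u k j) x‖ ≤ Λ := by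
    intro k j x
    rw [norm_grad]
    exact norm_fderiv_le_of_lipschitz ℝ (hlip k j)
  have hsupp : ∀ k j x, x ∉ tsupport χ → ∇ (u k j) x = 0 := fun k j x hx =>
    grad_eq_zero_of_notMem fun h => hx (tsupport_mul_subset_left h)
  -- integrability
  set B : E n → ℝ := (tsupport χ).indicator fun x => β * (Λ : ℝ) ^ (p - 1) * ‖D x‖ with hB
  have hβ : 0 ≤ β := hop.hα.le.trans hop.hαβ
  have hBint : Integrable B := by
    rw [hB, integrable_indicator_iff hcs.measurableSet]
    have : IsFiniteMeasure (volume.restrict (tsupport χ)) :=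
      ⟨by rw [Measure.restrict_apply_univ]; exact hcs.measure_lt_top⟩
    have h1 : Integrable D (volume.restrict (tsupport χ)) :=
      (hD.restrict _).integrable (one_le_ofReal hp1)
    exact h1.norm.const_mul _
  have hbd : ∀ k j x, ‖(⟪a x (∇ (u k j) x), D x⟫ : ℝ)‖ ≤ B x := by
    intro k j x
    by_cases hx : x ∈ tsupport χ
    · rw [hB, indicator_of_mem hx, Real.norm_eq_abs]
      refine (abs_real_inner_le_norm _ _).trans (mul_le_mul_of_nonneg_right ?_ (norm_nonneg _))
      refine (hop.bdd _ _).trans (mul_le_mul_of_nonneg_left ?_ hβ)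
      exact Real.rpow_le_rpow (norm_nonneg _) (hgr k j x) (by linarith)
    · rw [hB, indicator_of_notMem hx, hsupp k j x hx, op_zero hp1 hop, inner_zero_left, norm_zero]
  have hmeas : ∀ k j, AEStronglyMeasurable (fun x => (⟪a x (∇ (u k j) x), D x⟫ : ℝ)) volume := by
    intro k j
    have h1 : Measurable fun x => ∇ (u k j) x := by
      have h2 : Measurable (fderiv ℝ (u k j)) := measurable_fderiv ℝ _
      exact (InnerProductSpace.toDual ℝ (E n)).symm.continuous.measurable.comp h2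
    have h3 : Measurable fun x => a x (∇ (u k j) x) := hop.meas.comp (measurable_id.prodMk h1)
    exact h3.aestronglyMeasurable.inner hD.1
  have hint : ∀ k j, Integrable fun x => (⟪a x (∇ (u k j) x), D x⟫ : ℝ) := fun k j =>
    hBint.mono' (hmeas k j) (Eventually.of_forall (hbd k j))
  -- the sum of three functions
  set F : ℕ → E n → ℝ := fun k x => ⟪a x (∇ (u k 0) x), D x⟫ + ⟪a x (∇ (u k 1) x), D x⟫ +
    ⟪a x (∇ (u k 2) x), D x⟫ with hF
  have hF0 : ∀ k, ∫ x, F k x = 0 := by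
    intro k
    rw [hF]
    show ∫ x, (⟪a x (∇ (u k 0) x), D x⟫ + ⟪a x (∇ (u k 1) x), D x⟫ +
      ⟪a x (∇ (u k 2) x), D x⟫) = 0
    have hadd : Integrable fun x => (⟪a x (∇ (u k 0) x), D x⟫ : ℝ) + ⟪a x (∇ (u k 1) x), D x⟫ :=
      (hint k 0).add (hint k 1)
    rw [integral_add hadd (hint k 2), integral_add (hint k 0) (hint k 1), hz, hz, hz]
    norm_num
  set L : E n → ℝ := fun x => (2 ^ (p - 1) - 2) * ((χ x) ^ (p - 1) * ⟪a x ξ, D x⟫) with hL
  have hae : ∀ᵐ x : E n, DifferentiableAt ℝ χ x ∧ ∀ (k : ℕ) (j : Fin 3) (m : ℤ),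
      ((k : ℝ) + 1) * ⟪ξ, x⟫ + ((j : ℕ) : ℝ) ≠ m := by
    refine hK.ae_differentiableAt.and ?_
    rw [ae_all_iff]
    intro k
    rw [ae_all_iff]
    intro j
    exact oss_ae ξ hξ k _
  have hlim : ∀ᵐ x : E n, Tendsto (fun k => F k x) atTop (𝓝 (L x)) := by
    filter_upwards [hae] with x hx
    obtain ⟨hd, hx⟩ := hx
    -- the gradients
    have hg : ∀ (k : ℕ) (j : Fin 3), ∇ (u k ((j : ℕ) : ℝ)) x =
        χ x • (sl (((k : ℝ) + 1) * ⟪ξ, x⟫ + ((j : ℕ) : ℝ)) • ξ) +
          oss ξ k ((j : ℕ) : ℝ) x • ∇ χ x := by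
      intro k j
      have h1 := oss_grad ξ k ((j : ℕ) : ℝ) x (hx k j)
      have h2 := grad_mul hd h1.1
      rw [h1.2] at h2
      exact h2
    set G : E n → ℝ → ℝ := fun e t => ⟪a x (χ x • (t • ξ) + e), D x⟫ with hG
    have hGc : ∀ t, Continuous fun e => G e t := by
      intro t
      exact ((hop.cont x).comp (continuous_const.add continuous_id)).inner continuous_const
    have he : ∀ j : Fin 3, Tendsto (fun k : ℕ => oss ξ k ((j : ℕ) : ℝ) x • ∇ χ x) atTop
        (𝓝 (0 : E n)) := by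
      intro j
      have h1 : Tendsto (fun k : ℕ => oss ξ k ((j : ℕ) : ℝ) x) atTop (𝓝 0) := by
        refine squeeze_zero_norm (fun k => oss_bound ξ k _ x) ?_
        have h2 : Tendsto (fun k : ℕ => (k : ℝ) + 1) atTop atTop :=
          tendsto_atTop_add_const_right _ _ tendsto_natCast_atTop_atTop
        exact h2.const_div_atTop 2
      have h3 := h1.smul_const (∇ χ x)
      rwa [zero_smul] at h3
    have hd0 : ∀ (j : Fin 3) (t : ℝ), Tendsto (fun k : ℕ =>
        |G (oss ξ k ((j : ℕ) : ℝ) x • ∇ χ x) t - G 0 t|) atTop (𝓝 0) := by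
      intro j t
      have h1 := ((hGc t).tendsto 0).comp (he j)
      have h2 := (h1.sub_const (G 0 t)).abs
      rw [sub_self, abs_zero] at h2
      exact h2
    have hsum : ∀ k : ℕ, F k x - L x = ∑ j : Fin 3,
        (G (oss ξ k ((j : ℕ) : ℝ) x • ∇ χ x) (sl (((k : ℝ) + 1) * ⟪ξ, x⟫ + ((j : ℕ) : ℝ))) -
          G 0 (sl (((k : ℝ) + 1) * ⟪ξ, x⟫ + ((j : ℕ) : ℝ)))) := by
      intro k
      have h3 := sl_three (fun t => G 0 t) (((k : ℝ) + 1) * ⟪ξ, x⟫)
      have h4 : G 0 2 + (G 0 (-1) + G 0 (-1)) = L x := by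
        simp only [hG, add_zero]
        exact slopes hp1 hop x ξ (D x) (χ x) (h01 x).1
      have g0 := hg k 0
      have g1 := hg k 1
      have g2 := hg k 2
      rw [Fin.sum_univ_three]
      simp only [Fin.val_zero, Fin.val_one, Fin.val_two, Nat.cast_zero, Nat.cast_one,
        Nat.cast_ofNat] at g0 g1 g2 ⊢
      simp only [hF, g0, g1, g2]
      rw [← h4, ← h3]
      simp only [hG, add_zero]
      ring
    have hbd3 : ∀ k : ℕ, |F k x - L x| ≤ ∑ j : Fin 3,
        (|G (oss ξ k ((j : ℕ) : ℝ) x • ∇ χ x) 2 - G 0 2| +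
          |G (oss ξ k ((j : ℕ) : ℝ) x • ∇ χ x) (-1) - G 0 (-1)|) := by
      intro k
      rw [hsum k]
      refine (Finset.abs_sum_le_sum_abs _ _).trans (Finset.sum_le_sum fun j _ => ?_)
      rcases sl_mem (((k : ℝ) + 1) * ⟪ξ, x⟫ + ((j : ℕ) : ℝ)) with h | h
      · rw [h]
        exact le_add_of_nonneg_right (abs_nonneg _)
      · rw [h]
        exact le_add_of_nonneg_left (abs_nonneg _)
    have ht0 : Tendsto (fun k : ℕ => ∑ j : Fin 3,
        (|G (oss ξ k ((j : ℕ) : ℝ) x • ∇ χ x) 2 - G 0 2| +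
          |G (oss ξ k ((j : ℕ) : ℝ) x • ∇ χ x) (-1) - G 0 (-1)|)) atTop (𝓝 0) := by
      have h5 := tendsto_finsetSum (Finset.univ : Finset (Fin 3)) fun j _ =>
        (hd0 j 2).add (hd0 j (-1))
      simpa using h5
    have h6 : Tendsto (fun k => F k x - L x) atTop (𝓝 0) := squeeze_zero_norm hbd3 ht0
    have h7 := h6.add_const (L x)
    simpa using h7
  have hfin := tendsto_integral_of_dominated_convergence (fun x => B x + B x + B x)
    (fun k => ((hmeas k 0).add (hmeas k 1)).add (hmeas k 2)) ((hBint.add hBint).add hBint)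
    (fun k => Eventually.of_forall fun x =>
      (norm_add_le _ _).trans (add_le_add ((norm_add_le _ _).trans
        (add_le_add (hbd k 0 x) (hbd k 1 x))) (hbd k 2 x))) hlim
  have h0 : ∫ x, L x = 0 := by
    refine tendsto_nhds_unique hfin ?_
    refine tendsto_const_nhds.congr fun k => ?_
    exact (hF0 k).symm
  rw [hL, integral_const_mul] at h0
  rcases mul_eq_zero.1 h0 with h1 | h1
  · exfalso
    have h2 : (2 : ℝ) ^ (1 : ℝ) < 2 ^ (p - 1) :=
      Real.rpow_lt_rpow_of_exponent_lt (by norm_num) (by linarith)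
    rw [Real.rpow_one] at h2
    linarith
  · exact h1

/-- local integrability -/
theorem intOn {n : ℕ} {p α β : ℝ} {a : E n → E n → E n} {D : E n → E n} (hp : 2 < p)
    (hop : Op p volume a α β) (hD : MemLp D (ENNReal.ofReal p) volume) (ξ : E n) (S : Set (E n))
    (hS : IsCompact S) : IntegrableOn (fun x => (⟪a x ξ, D x⟫ : ℝ)) S := by
  have hp1 : 1 < p := by linarith
  have hβ : 0 ≤ β := hop.hα.le.trans hop.hαβ
  have : IsFiniteMeasure (volume.restrict S) :=
    ⟨by rw [Measure.restrict_apply_univ]; exact hS.measure_lt_top⟩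
  have h1 : Integrable D (volume.restrict S) := (hD.restrict _).integrable (one_le_ofReal hp1)
  have h2 : Measurable fun x => a x ξ := hop.meas.comp (measurable_id.prodMk measurable_const)
  refine (h1.norm.const_mul (β * ‖ξ‖ ^ (p - 1))).mono'
    (h2.aestronglyMeasurable.inner h1.1) (Eventually.of_forall fun x => ?_)
  rw [Real.norm_eq_abs]
  exact (abs_real_inner_le_norm _ _).trans
    (mul_le_mul_of_nonneg_right (hop.bdd x ξ) (norm_nonneg _))

theorem osc_set (hls : LsobStatement) {n : ℕ} {p α β R : ℝ} {a : E n → E n → E n}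
    {D : E n → E n} (hp : 2 < p) (hop : Op p volume a α β)
    (hD : MemLp D (ENNReal.ofReal p) volume)
    (hort : ∀ (u : E n → ℝ) (U : E n → E n), H0 volume p (ball 0 R) u U →
      ∫ x, ⟪a x (U x), D x⟫ = 0) (ξ : E n) (hξ : ξ ≠ 0) (K : Set (E n)) (hK : IsCompact K)
    (hKR : K ⊆ ball 0 R) : ∫ x in K, ⟪a x ξ, D x⟫ = 0 := by
  rcases K.eq_empty_or_nonempty with rfl | hne
  · simp
  obtain ⟨δ, hδ, hsub⟩ := hK.exists_cthickening_subset_open isOpen_ball hKR
  set χ : ℕ → E n → ℝ := fun m x => max 0 (1 - ((m : ℝ) + 1) / δ * infDist x K) with hχ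
  have h01 : ∀ m x, χ m x ∈ Icc (0 : ℝ) 1 := by
    intro m x
    refine ⟨le_max_left _ _, max_le zero_le_one ?_⟩
    have : 0 ≤ ((m : ℝ) + 1) / δ * infDist x K := mul_nonneg (by positivity) infDist_nonneg
    linarith
  have hout : ∀ m x, x ∉ cthickening δ K → χ m x = 0 := by
    intro m x hx
    have h1 : δ ≤ infDist x K := by
      by_contra h
      exact hx (thickening_subset_cthickening _ _
        ((mem_thickening_iff_infDist_lt hne).2 (not_le.1 h)))
    refine max_eq_left ?_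
    have h2 : ((m : ℝ) + 1) / δ * δ ≤ ((m : ℝ) + 1) / δ * infDist x K :=
      mul_le_mul_of_nonneg_left h1 (by positivity)
    rw [div_mul_cancel₀ _ hδ.ne'] at h2
    have : (0 : ℝ) ≤ m := Nat.cast_nonneg m
    linarith
  have hcomp : IsCompact (cthickening δ K) := hK.cthickening
  have hts : ∀ m, tsupport (χ m) ⊆ cthickening δ K := by
    intro m
    refine closure_minimal ?_ isClosed_cthickening
    intro x hx
    by_contra h
    exact hx (hout m x h)
  have hlip : ∀ m, LipC (ball 0 R) (χ m) := by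
    intro m
    refine ⟨⟨Real.toNNReal (((m : ℝ) + 1) / δ), LipschitzWith.of_dist_le_mul fun x y => ?_⟩,
      HasCompactSupport.intro hcomp (hout m), (hts m).trans hsub⟩
    have h1 := (lipschitz_infDist_pt K).dist_le_mul x y
    rw [Real.dist_eq, NNReal.coe_one, one_mul] at h1
    rw [Real.dist_eq, Real.coe_toNNReal _ (by positivity)]
    have h2 : |χ m x - χ m y| ≤ |(1 - ((m : ℝ) + 1) / δ * infDist x K) -
        (1 - ((m : ℝ) + 1) / δ * infDist y K)| := by
      have := abs_max_sub_max_le_max 0 (1 - ((m : ℝ) + 1) / δ * infDist x K) 0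
        (1 - ((m : ℝ) + 1) / δ * infDist y K)
      rw [sub_self, abs_zero] at this
      exact this.trans (max_le (abs_nonneg _) le_rfl)
    refine h2.trans ?_
    have e : (1 - ((m : ℝ) + 1) / δ * infDist x K) - (1 - ((m : ℝ) + 1) / δ * infDist y K) =
        -(((m : ℝ) + 1) / δ * (infDist x K - infDist y K)) := by ring
    have h0 : (0 : ℝ) ≤ ((m : ℝ) + 1) / δ := by positivity
    rw [e, abs_neg, abs_mul, abs_of_nonneg h0]
    exact mul_le_mul_of_nonneg_left h1 h0
  have hzero : ∀ m, ∫ x, (χ m x) ^ (p - 1) * ⟪a x ξ, D x⟫ = 0 := fun m =>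
    osc_identity hls hp hop hD hort ξ hξ (χ m) (hlip m) (h01 m)
  set G : E n → ℝ := fun x => ⟪a x ξ, D x⟫ with hG
  have hGi : IntegrableOn G (cthickening δ K) := intOn hp hop hD ξ _ hcomp
  have hbi : Integrable ((cthickening δ K).indicator fun x => |G x|) := by
    rw [integrable_indicator_iff isClosed_cthickening.measurableSet]
    exact hGi.abs
  have hlim : Tendsto (fun m : ℕ => ∫ x, (χ m x) ^ (p - 1) * G x) atTop
      (𝓝 (∫ x, K.indicator G x)) := by
    refine tendsto_integral_of_dominated_convergence ((cthickening δ K).indicator fun x => |G x|)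
      ?_ hbi ?_ ?_
    · intro m
      have h1 : Continuous (χ m) := by
        obtain ⟨⟨K', hK'⟩, -⟩ := hlip m
        exact hK'.continuous
      have h2 : Continuous fun x => χ m x ^ (p - 1) :=
        h1.rpow_const fun x => Or.inr (by linarith)
      have h3 : Measurable fun x => a x ξ := hop.meas.comp (measurable_id.prodMk measurable_const)
      exact h2.aestronglyMeasurable.mul (h3.aestronglyMeasurable.inner hD.1)
    · intro m
      refine Eventually.of_forall fun x => ?_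
      by_cases hx : x ∈ cthickening δ K
      · rw [indicator_of_mem hx, Real.norm_eq_abs, abs_mul]
        have h1 : |χ m x ^ (p - 1)| ≤ 1 := by
          rw [abs_of_nonneg (Real.rpow_nonneg (h01 m x).1 _)]
          exact Real.rpow_le_one (h01 m x).1 (h01 m x).2 (by linarith)
        exact mul_le_of_le_one_left (abs_nonneg _) h1
      · rw [indicator_of_notMem hx, hout m x hx, Real.zero_rpow (by linarith), zero_mul, norm_zero]
    · refine Eventually.of_forall fun x => ?_
      by_cases hx : x ∈ K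
      · rw [indicator_of_mem hx]
        refine tendsto_const_nhds.congr fun m => ?_
        have h1 : χ m x = 1 := by
          simp only [hχ]
          rw [infDist_zero_of_mem hx, mul_zero, sub_zero]
          exact max_eq_right zero_le_one
        rw [h1, Real.one_rpow, one_mul]
      · rw [indicator_of_notMem hx]
        have hpos : 0 < infDist x K := (hK.isClosed.notMem_iff_infDist_pos hne).1 hx
        have h1 : Tendsto (fun m : ℕ => ((m : ℝ) + 1) / δ * infDist x K) atTop atTop := by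
          have h2 : Tendsto (fun m : ℕ => (m : ℝ) + 1) atTop atTop :=
            tendsto_atTop_add_const_right _ _ tendsto_natCast_atTop_atTop
          exact (h2.atTop_div_const hδ).atTop_mul_const hpos
        have h3 : ∀ᶠ m : ℕ in atTop, χ m x ^ (p - 1) * G x = 0 := by
          filter_upwards [h1.eventually_ge_atTop 1] with m hm
          have h4 : χ m x = 0 := max_eq_left (by linarith)
          rw [h4, Real.zero_rpow (by linarith), zero_mul]
        exact (tendsto_congr' h3).2 tendsto_const_nhds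
  rw [← integral_indicator hK.measurableSet]
  refine tendsto_nhds_unique hlim ?_
  exact tendsto_const_nhds.congr fun m => (hzero m).symm

theorem osc_ae (hls : LsobStatement) {n : ℕ} {p α β R : ℝ} {a : E n → E n → E n}
    {D : E n → E n} (hp : 2 < p) (hop : Op p volume a α β) (hR : 0 < R)
    (hD : MemLp D (ENNReal.ofReal p) volume)
    (hort : ∀ (u : E n → ℝ) (U : E n → E n), H0 volume p (ball 0 R) u U →
      ∫ x, ⟪a x (U x), D x⟫ = 0) (ξ : E n) :
    ∀ᵐ x : E n, x ∈ ball 0 R → (⟪a x ξ, D x⟫ : ℝ) = 0 := by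
  rcases eq_or_ne ξ 0 with rfl | hξ
  · refine Eventually.of_forall fun x _ => ?_
    rw [op_zero (by linarith) hop, inner_zero_left]
  have h1 : ∀ m : ℕ, ∀ᵐ x : E n, x ∈ closedBall (0 : E n) (R - R / ((m : ℝ) + 1)) →
      (⟪a x ξ, D x⟫ : ℝ) = 0 := by
    intro m
    set r := R - R / ((m : ℝ) + 1) with hr
    have hrR : r < R := by
      have : 0 < R / ((m : ℝ) + 1) := by positivity
      linarith
    have hc : IsCompact (closedBall (0 : E n) r) := isCompact_closedBall _ _
    have hi : Integrable ((closedBall (0 : E n) r).indicator fun x => (⟪a x ξ, D x⟫ : ℝ)) := by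
      rw [integrable_indicator_iff isClosed_closedBall.measurableSet]
      exact intOn hp hop hD ξ _ hc
    have h2 := ae_eq_zero_of_forall_setIntegral_isCompact_eq_zero' hi.locallyIntegrable ?_
    · filter_upwards [h2] with x hx hxr
      rw [indicator_of_mem hxr] at hx
      exact hx
    · intro s hs
      rw [setIntegral_indicator isClosed_closedBall.measurableSet]
      exact osc_set hls hp hop hD hort ξ hξ _ (hs.inter_right isClosed_closedBall)
        (inter_subset_right.trans (closedBall_subset_ball hrR))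
  rw [← ae_all_iff] at h1
  filter_upwards [h1] with x hx hxR
  have hxR' : ‖x‖ < R := by simpa using hxR
  obtain ⟨m, hm⟩ := exists_nat_gt (R / (R - ‖x‖))
  refine hx m ?_
  rw [mem_closedBall_zero_iff]
  have h3 : 0 < R - ‖x‖ := by linarith
  rw [div_lt_iff₀ h3] at hm
  have h4 : R / ((m : ℝ) + 1) ≤ R - ‖x‖ := by
    rw [div_le_iff₀ (by positivity)]
    nlinarith
  linarith

/-- **OSCP** -/
theorem oscp (hls : LsobStatement) : OscpStatement := by
  intro n p a α β R D hp hop hR hD hort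
  obtain ⟨S, hS, hSd⟩ := TopologicalSpace.exists_countable_dense (E n)
  have h1 : ∀ᵐ x : E n, ∀ ξ ∈ S, x ∈ ball 0 R → (⟪a x ξ, D x⟫ : ℝ) = 0 := by
    rw [ae_ball_iff hS]
    intro ξ _
    exact osc_ae hls hp hop hR hD hort ξ
  filter_upwards [h1] with x hx hxR
  have hcl : IsClosed {ξ : E n | (⟪a x ξ, D x⟫ : ℝ) = 0} :=
    isClosed_eq ((hop.cont x).inner continuous_const) continuous_const
  have h2 : (⟪a x (D x), D x⟫ : ℝ) = 0 := by
    have h3 : closure S ⊆ {ξ : E n | (⟪a x ξ, D x⟫ : ℝ) = 0} :=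
      closure_minimal (fun ξ hξ => hx ξ hξ hxR) hcl
    exact h3 (hSd (D x))
  have h4 := hop.ell x (D x)
  rw [h2] at h4
  by_contra hne
  have h5 : 0 < ‖D x‖ ^ p := Real.rpow_pos_of_pos (norm_pos_iff.2 hne) _
  have := mul_pos hop.hα h5
  linarith

end Pool.Agent.Lib.MP_abd978_an.UN.H36

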