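import Pool.Agent.Lib.MP_abd978_an.UN.Interfaces

/-!
# Project UNW, module RIEM: from finitely many poles to continuous densities
-/

set_option autoImplicit false

open MeasureTheory Metric Set Filter Topology ContDiff
open scoped Gradient RealInnerProductSpace NNReal ENNReal

namespace Pool.Agent.Lib.MP_abd978_an.UN.H36

/-! ### Small cells -/

theorem exists_cells {X : Type} [PseudoMetricSpace X] [MeasurableSpace X]
    [OpensMeasurableSpace X] (K : Set X) (hK : IsCompact K) {δ : ℝ} (hδ : 0 < δ) :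
    ∃ (N : ℕ) (c : X → ℕ), Measurable c ∧ (∀ z ∈ K, c z < N) ∧
      ∀ z ∈ K, ∀ z' ∈ K, c z = c z' → dist z z' < δ := by
  classical
  obtain ⟨t, -, htf, hcov⟩ := hK.finite_cover_balls (half_pos hδ)
  have key : ∀ s : Finset X, ∃ (N : ℕ) (c : X → ℕ), Measurable c ∧
      (∀ z, (∃ y ∈ s, z ∈ ball y (δ / 2)) → c z < N) ∧
      ∀ z, (∃ y ∈ s, z ∈ ball y (δ / 2)) → ∀ z', (∃ y ∈ s, z' ∈ ball y (δ / 2)) →
        c z = c z' → dist z z' < δ := by
    intro s
    induction s using Finset.induction_on with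
    | empty => exact ⟨0, fun _ => 0, measurable_const, by simp, by simp⟩
    | insert y s _ ih =>
      obtain ⟨N, c, hc, h1, h2⟩ := ih
      refine ⟨N + 1, fun z => if z ∈ ball y (δ / 2) then N else c z,
        Measurable.ite measurableSet_ball measurable_const hc, ?_, ?_⟩
      · intro z hz
        by_cases hzy : z ∈ ball y (δ / 2)
        · show (if z ∈ ball y (δ / 2) then N else c z) < N + 1
          rw [if_pos hzy]
          exact Nat.lt_succ_self N
        · show (if z ∈ ball y (δ / 2) then N else c z) < N + 1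
          rw [if_neg hzy]
          obtain ⟨y', hy', hzy'⟩ := hz
          rcases Finset.mem_insert.1 hy' with rfl | hy'
          · exact absurd hzy' hzy
          · exact (h1 z ⟨y', hy', hzy'⟩).trans (Nat.lt_succ_self N)
      · intro z hz z' hz' he
        have he' : (if z ∈ ball y (δ / 2) then N else c z) =
          (if z' ∈ ball y (δ / 2) then N else c z') := he
        have hs : ∀ w, w ∉ ball y (δ / 2) → (∃ y' ∈ insert y s, w ∈ ball y' (δ / 2)) →
            ∃ y' ∈ s, w ∈ ball y' (δ / 2) := by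
          rintro w hw ⟨y', hy', hwy'⟩
          rcases Finset.mem_insert.1 hy' with rfl | hy'
          · exact absurd hwy' hw
          · exact ⟨y', hy', hwy'⟩
        by_cases hzy : z ∈ ball y (δ / 2) <;> by_cases hzy' : z' ∈ ball y (δ / 2)
        · have := dist_triangle_right z z' y
          rw [mem_ball] at hzy hzy'
          linarith
        · rw [if_pos hzy, if_neg hzy'] at he'
          exact absurd he'.symm (h1 z' (hs z' hzy' hz')).ne
        · rw [if_neg hzy, if_pos hzy'] at he'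
          exact absurd he' (h1 z (hs z hzy hz)).ne
        · rw [if_neg hzy, if_neg hzy'] at he'
          exact h2 z (hs z hzy hz) z' (hs z' hzy' hz') he'
  obtain ⟨N, c, hc, h1, h2⟩ := key htf.toFinset
  have hin : ∀ z ∈ K, ∃ y ∈ htf.toFinset, z ∈ ball y (δ / 2) := by
    intro z hz
    obtain ⟨y, hy⟩ := mem_iUnion.1 (hcov hz)
    obtain ⟨hy1, hy2⟩ := mem_iUnion.1 hy
    exact ⟨y, htf.mem_toFinset.2 hy1, hy2⟩
  exact ⟨N, c, hc, fun z hz => h1 z (hin z hz),
    fun z hz z' hz' he => h2 z (hin z hz) z' (hin z' hz') he⟩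

/-! ### Integrals of functions with values in `L^q` -/

theorem dx_conj {p : ℝ} (hp : 1 < p) : (dx p).HolderConjugate p := by
  have h := Real.HolderConjugate.conjExponent hp
  exact h.symm

theorem dx_one {p : ℝ} (hp : 1 < p) : 1 < dx p := (dx_conj hp).lt

theorem holder_one {X : Type} [MeasurableSpace X] {μ : Measure X} {p : ℝ}
    (hp : 1 < p) {f : X → ℝ≥0∞} (hf : AEMeasurable f μ) :
    (∫⁻ x, f x ∂μ) ^ dx p ≤ μ univ ^ (dx p - 1) * ∫⁻ x, f x ^ dx p ∂μ := by
  have hq := dx_one hp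
  have h := ENNReal.lintegral_mul_le_Lp_mul_Lq μ (dx_conj hp) hf
    (aemeasurable_const (b := (1 : ℝ≥0∞)))
  simp only [Pi.mul_apply, mul_one, ENNReal.one_rpow, lintegral_const, one_mul] at h
  have h2 := ENNReal.rpow_le_rpow h (by linarith : (0 : ℝ) ≤ dx p)
  rw [ENNReal.mul_rpow_of_nonneg _ _ (by linarith), ← ENNReal.rpow_mul, ← ENNReal.rpow_mul,
    one_div_mul_cancel (by linarith), ENNReal.rpow_one] at h2
  have e : 1 / p * dx p = dx p - 1 := by
    have hp0 : p ≠ 0 := by linarith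
    have hp1 : p - 1 ≠ 0 := by linarith
    unfold dx
    field_simp
    ring
  rw [e, mul_comm] at h2
  exact h2

theorem lint_lint {X Y : Type} [MeasurableSpace X] [MeasurableSpace Y] {μ : Measure X}
    {ν : Measure Y} [SFinite ν] [SFinite μ] {p : ℝ} (hp : 1 < p)
    {f : X → Y → ℝ≥0∞} (hf : Measurable fun r : X × Y => f r.1 r.2) {ε : ℝ≥0∞}
    (hε : ∀ᵐ z ∂μ, ∫⁻ x, f z x ^ dx p ∂ν ≤ ε ^ dx p) :
    ∫⁻ x, (∫⁻ z, f z x ∂μ) ^ dx p ∂ν ≤ (μ univ * ε) ^ dx p := by
  have hq := dx_one hp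
  have h1 : ∫⁻ x, (∫⁻ z, f z x ∂μ) ^ dx p ∂ν ≤
      ∫⁻ x, μ univ ^ (dx p - 1) * ∫⁻ z, f z x ^ dx p ∂μ ∂ν := by
    refine lintegral_mono fun x => ?_
    exact holder_one hp (hf.comp (measurable_id.prodMk measurable_const)).aemeasurable
  have hf' : Measurable fun r : X × Y => f r.1 r.2 ^ dx p := hf.pow_const _
  have h2 : ∫⁻ x, μ univ ^ (dx p - 1) * ∫⁻ z, f z x ^ dx p ∂μ ∂ν =
      μ univ ^ (dx p - 1) * ∫⁻ x, ∫⁻ z, f z x ^ dx p ∂μ ∂ν :=
    lintegral_const_mul _ hf'.lintegral_prod_left'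
  have h3 : ∫⁻ x, ∫⁻ z, f z x ^ dx p ∂μ ∂ν = ∫⁻ z, ∫⁻ x, f z x ^ dx p ∂ν ∂μ :=
    (lintegral_lintegral_swap (f := fun z x => f z x ^ dx p) hf'.aemeasurable).symm
  have h4 : ∫⁻ z, ∫⁻ x, f z x ^ dx p ∂ν ∂μ ≤ ε ^ dx p * μ univ := by
    rw [← lintegral_const]
    exact lintegral_mono_ae hε
  rw [h2, h3] at h1
  refine h1.trans ((mul_le_mul_right h4 _).trans ?_)
  rw [ENNReal.mul_rpow_of_nonneg _ _ (by linarith)]
  have e : μ univ ^ dx p = μ univ ^ (dx p - 1) * μ univ := by
    conv_lhs => rw [show dx p = (dx p - 1) + 1 by ring]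
    rw [ENNReal.rpow_add_of_nonneg _ _ (by linarith) zero_le_one, ENNReal.rpow_one]
  rw [e, mul_comm (ε ^ dx p), mul_assoc]

/-! ### The kernel -/

variable {n : ℕ} {p R : ℝ}

theorem ker_meas : Measurable fun r : E n × E n => ker r.1 r.2 := by
  unfold ker
  fun_prop

theorem eLp (hp : 1 < p) {X : Type} [MeasurableSpace X] {μ : Measure X} (f : X → E n) :
    eLpNorm f (ENNReal.ofReal (dx p)) μ = (∫⁻ x, ‖f x‖ₑ ^ dx p ∂μ) ^ (1 / dx p) := by
  have hq := dx_one hp
  have h0 : ENNReal.ofReal (dx p) ≠ 0 := by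
    rw [Ne, ENNReal.ofReal_eq_zero, not_le]
    linarith
  rw [eLpNorm_eq_lintegral_rpow_enorm_toReal h0 ENNReal.ofReal_ne_top,
    ENNReal.toReal_ofReal (by linarith)]

theorem lint_of_eLp (hp : 1 < p) {X : Type} [MeasurableSpace X] {μ : Measure X} (f : X → E n)
    {ε : ℝ≥0∞} (h : eLpNorm f (ENNReal.ofReal (dx p)) μ ≤ ε) :
    ∫⁻ x, ‖f x‖ₑ ^ dx p ∂μ ≤ ε ^ dx p := by
  have hq := dx_one hp
  rw [eLp hp] at h
  have h2 := ENNReal.rpow_le_rpow h (by linarith : (0 : ℝ) ≤ dx p)
  rwa [← ENNReal.rpow_mul, one_div_mul_cancel (by linarith), ENNReal.rpow_one] at h2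

/-- integrals of functions with values in `L^q` -/
theorem eLp_integral (hp : 1 < p) {X : Type} [MeasurableSpace X] {μ : Measure X}
    [IsFiniteMeasure μ] {Θ : X → X → E n} (hΘ : Measurable fun r : X × X => Θ r.1 r.2)
    {ε : ℝ≥0∞} (hε : ∀ᵐ z ∂μ, eLpNorm (Θ z) (ENNReal.ofReal (dx p)) μ ≤ ε) :
    eLpNorm (fun x => ∫ z, Θ z x ∂μ) (ENNReal.ofReal (dx p)) μ ≤ μ univ * ε := by
  have hq := dx_one hp
  have h1 : ∫⁻ x, (∫⁻ z, ‖Θ z x‖ₑ ∂μ) ^ dx p ∂μ ≤ (μ univ * ε) ^ dx p := by
    refine lint_lint hp (f := fun z x => ‖Θ z x‖ₑ) hΘ.enorm ?_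
    filter_upwards [hε] with z hz
    exact lint_of_eLp hp _ hz
  rw [eLp hp]
  have h2 : ∫⁻ x, ‖∫ z, Θ z x ∂μ‖ₑ ^ dx p ∂μ ≤ (μ univ * ε) ^ dx p := by
    refine le_trans (lintegral_mono fun x => ?_) h1
    exact ENNReal.rpow_le_rpow (enorm_integral_le_lintegral_enorm _) (by linarith)
  have h3 := ENNReal.rpow_le_rpow h2 (by positivity : (0 : ℝ) ≤ 1 / dx p)
  rwa [← ENNReal.rpow_mul (μ univ * ε), mul_one_div_cancel (by linarith), ENNReal.rpow_one] at h3

theorem ae_integrable (hp : 1 < p) {X : Type} [MeasurableSpace X] {μ : Measure X}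
    [IsFiniteMeasure μ] {Θ : X → X → E n} (hΘ : Measurable fun r : X × X => Θ r.1 r.2)
    {ε : ℝ≥0∞} (hε : ∀ᵐ z ∂μ, eLpNorm (Θ z) (ENNReal.ofReal (dx p)) μ ≤ ε) (hε' : ε ≠ ⊤) :
    ∀ᵐ x ∂μ, Integrable (fun z => Θ z x) μ := by
  have hq := dx_one hp
  have h1 : ∫⁻ x, (∫⁻ z, ‖Θ z x‖ₑ ∂μ) ^ dx p ∂μ ≤ (μ univ * ε) ^ dx p := by
    refine lint_lint hp (f := fun z x => ‖Θ z x‖ₑ) hΘ.enorm ?_
    filter_upwards [hε] with z hz
    exact lint_of_eLp hp _ hz
  have h2 : ∫⁻ x, (∫⁻ z, ‖Θ z x‖ₑ ∂μ) ^ dx p ∂μ ≠ ⊤ := by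
    refine ne_top_of_le_ne_top ?_ h1
    exact ENNReal.rpow_ne_top_of_nonneg (by linarith)
      (ENNReal.mul_ne_top (measure_ne_top _ _) hε')
  have h3 : Measurable fun x => (∫⁻ z, ‖Θ z x‖ₑ ∂μ) ^ dx p :=
    (hΘ.enorm.lintegral_prod_left').pow_const _
  filter_upwards [ae_lt_top h3 h2] with x hx
  refine ⟨(hΘ.comp (measurable_id.prodMk measurable_const)).aestronglyMeasurable, ?_⟩
  rw [hasFiniteIntegral_iff_enorm]
  exact lt_top_iff_ne_top.2 fun h => by
    rw [h, ENNReal.top_rpow_of_pos (by linarith)] at hx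
    exact lt_irrefl _ hx

/-- Lebesgue points -/
theorem ae_lebPt {T : E n → ℝ} (hT : Measurable T) {C : ℝ} (hC : ∀ z, |T z| ≤ C) :
    ∀ᵐ z : E n, LebPt T z := by
  have hloc : LocallyIntegrable T (volume : Measure (E n)) := by
    intro x
    refine ⟨ball x 1, ball_mem_nhds x one_pos, ?_⟩
    have : IsFiniteMeasure (volume.restrict (ball x 1)) :=
      ⟨by rw [Measure.restrict_apply_univ]; exact measure_ball_lt_top⟩
    refine Integrable.mono' (integrable_const C) hT.aestronglyMeasurable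
      (Eventually.of_forall fun z => ?_)
    rw [Real.norm_eq_abs]
    exact hC z
  filter_upwards [IsUnifLocDoublingMeasure.ae_tendsto_average_norm_sub
    (volume : Measure (E n)) hloc 1] with z hz
  have h1 := hz (ι := ℝ) (l := 𝓝[>] 0) (fun _ => z) (fun r => r) tendsto_id ?_
  · unfold LebPt
    refine h1.congr' ?_
    filter_upwards [self_mem_nhdsWithin] with r hr
    have hr' : (0 : ℝ) < r := hr
    have h2 : closedBall z r =ᵐ[(volume : Measure (E n))] ball z r := by
      rw [← ball_union_sphere]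
      have h3 : sphere z r =ᵐ[(volume : Measure (E n))] (∅ : Set (E n)) := by
        rw [ae_eq_empty]
        exact Measure.addHaar_sphere_of_ne_zero _ _ hr'.ne'
      have h4 := (ae_eq_refl (μ := (volume : Measure (E n))) (ball z r)).union h3
      rwa [union_empty] at h4
    exact setAverage_congr h2
  · filter_upwards [self_mem_nhdsWithin] with r hr
    have hr' : (0 : ℝ) < r := hr
    exact mem_closedBall_self (by linarith)

/-- a uniform bound for the kernel -/
theorem ker_bound (hker : KerStatement) (hn : 2 ≤ n) (hp : (n : ℝ) < p) (hR : 0 < R) :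
    ∃ C : ℝ, 0 ≤ C ∧ ∀ z : E n, ‖z‖ ≤ R →
      eLpNorm (ker z) (ENNReal.ofReal (dx p)) (volume.restrict (ball (0 : E n) R)) ≤
        ENNReal.ofReal C := by
  obtain ⟨h1, h2, -, -⟩ := hker n p R hn hp hR
  obtain ⟨δ, hδ, h3⟩ := h2 1 one_pos
  obtain ⟨t, htK, htf, hcov⟩ := (isCompact_closedBall (0 : E n) R).finite_cover_balls hδ
  set q := ENNReal.ofReal (dx p) with hq
  set μ := volume.restrict (ball (0 : E n) R) with hμ
  set S : ℝ≥0∞ := ∑ y ∈ htf.toFinset, eLpNorm (ker y) q μ with hS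
  have hST : S ≠ ⊤ := by
    rw [hS]
    exact (ENNReal.sum_lt_top.2 fun y _ => (h1 y).2).ne
  refine ⟨(S + 1).toReal, ENNReal.toReal_nonneg, fun z hz => ?_⟩
  rw [ENNReal.ofReal_toReal (ENNReal.add_ne_top.2 ⟨hST, ENNReal.one_ne_top⟩)]
  obtain ⟨y, hy⟩ := mem_iUnion.1 (hcov (mem_closedBall_zero_iff.2 hz))
  obtain ⟨hy1, hy2⟩ := mem_iUnion.1 hy
  have hyR : ‖y‖ ≤ R := mem_closedBall_zero_iff.1 (htK hy1)
  have h4 := h3 z y hz hyR (mem_ball.1 hy2)
  have h5 : eLpNorm (ker z) q μ ≤ eLpNorm (ker y) q μ +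
      eLpNorm (fun x => ker z x - ker y x) q μ := by
    have h6 : ker z = ker y + fun x => ker z x - ker y x := by
      ext1 x
      simp
    conv_lhs => rw [h6]
    refine eLpNorm_add_le (h1 y).1 ((h1 z).1.sub (h1 y).1) ?_
    rw [hq, ← ENNReal.ofReal_one]
    have hn' : (2 : ℝ) ≤ n := by exact_mod_cast hn
    exact ENNReal.ofReal_le_ofReal (dx_one (by linarith)).le
  refine h5.trans (add_le_add ?_ ?_)
  · exact Finset.single_le_sum (f := fun y => eLpNorm (ker y) q μ) (fun _ _ => zero_le)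
      (htf.mem_toFinset.2 hy1)
  · simpa using h4

/-! ### Riemann sums -/

theorem cells_integral {F : Type} [NormedAddCommGroup F] [NormedSpace ℝ F] [CompleteSpace F]
    {c : E n → ℕ} (hc : Measurable c) {N : ℕ} (hN : ∀ z ∈ ball (0 : E n) R, c z < N)
    (Φ : E n → F) (hΦ : IntegrableOn Φ (ball 0 R)) :
    ∫ z in ball (0 : E n) R, Φ z =
      ∑ i ∈ Finset.range N, ∫ z in c ⁻¹' {i} ∩ ball 0 R, Φ z := by
  have hU : ball (0 : E n) R = ⋃ i ∈ Finset.range N, (c ⁻¹' {i} ∩ ball 0 R) := by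
    ext z
    simp only [mem_iUnion, mem_inter_iff, mem_preimage, mem_singleton_iff, Finset.mem_range]
    constructor
    · intro hz
      exact ⟨c z, hN z hz, rfl, hz⟩
    · rintro ⟨i, -, -, hz⟩
      exact hz
  have hm : ∀ i, MeasurableSet (c ⁻¹' {i} ∩ ball (0 : E n) R) := fun i =>
    (hc (measurableSet_singleton i)).inter measurableSet_ball
  conv_lhs => rw [hU]
  refine integral_biUnion_finset _ (fun i _ => hm i) ?_ fun i _ => hΦ.mono_set inter_subset_right
  intro i _ j _ hij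
  refine Set.disjoint_left.2 fun z hz hz' => hij ?_
  have h1 : c z = i := hz.1
  have h2 : c z = j := hz'.1
  rw [← h1, ← h2]

theorem riemann (hker : KerStatement) (hn : 2 ≤ n) (hp : (n : ℝ) < p) (hR : 0 < R)
    {g T : E n → ℝ} (hg : Continuous g) (hgs : tsupport g ⊆ ball 0 R) (hT : Measurable T)
    {C : ℝ} (hC : ∀ z, |T z| ≤ C) {ε : ℝ} (hε : 0 < ε) :
    ∃ (s : Finset (E n)) (w : E n → ℝ), (∀ z ∈ s, z ∈ ball 0 R) ∧ (∀ z ∈ s, LebPt T z) ∧
      eLpNorm (fun x => (∑ z ∈ s, w z • ker z x) - ∫ z, g z • ker z x)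
        (ENNReal.ofReal (dx p)) (volume.restrict (ball 0 R)) ≤ ENNReal.ofReal ε ∧
      ∫ z, g z * T z ≤ ∑ z ∈ s, w z * T z := by
  classical
  have hn' : (2 : ℝ) ≤ n := by exact_mod_cast hn
  have hp1 : 1 < p := by linarith
  have hcs : HasCompactSupport g :=
    (isCompact_closedBall (0 : E n) R).of_isClosed_subset (isClosed_tsupport g)
      (hgs.trans ball_subset_closedBall)
  obtain ⟨M, hM⟩ : ∃ M : ℝ, ∀ z, |g z| ≤ M := by
    obtain ⟨M, hM⟩ := hcs.exists_bound_of_continuous hg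
    exact ⟨M, fun z => by simpa using hM z⟩
  have hM0 : 0 ≤ M := (abs_nonneg _).trans (hM 0)
  obtain ⟨Ck, hCk, hker1⟩ := ker_bound hker hn hp hR
  obtain ⟨hk1, hk2, -, -⟩ := hker n p R hn hp hR
  set q := ENNReal.ofReal (dx p) with hq
  set B := ball (0 : E n) R with hB
  set μ := volume.restrict B with hμ
  have hfin : IsFiniteMeasure μ :=
    ⟨by rw [hμ, Measure.restrict_apply_univ]; exact measure_ball_lt_top⟩
  have hq1 : 1 ≤ q := by
    rw [hq, ← ENNReal.ofReal_one]
    exact ENNReal.ofReal_le_ofReal (dx_one hp1).le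
  -- the constants
  set V : ℝ := μ.real univ with hV
  have hV0 : 0 ≤ V := measureReal_nonneg
  obtain ⟨η, hη, hηε⟩ : ∃ η : ℝ, 0 < η ∧ V * (M * η + η * Ck) ≤ ε := by
    refine ⟨ε / (V * (M + Ck) + 1), by positivity, ?_⟩
    have h1 : 0 < V * (M + Ck) + 1 := by positivity
    have h2 : V * (M * (ε / (V * (M + Ck) + 1)) + ε / (V * (M + Ck) + 1) * Ck) =
        ε * ((V * (M + Ck)) / (V * (M + Ck) + 1)) := by
      field_simp
    rw [h2]
    refine mul_le_of_le_one_right hε.le ?_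
    rw [div_le_one h1]
    linarith
  obtain ⟨δ₁, hδ₁, hd1⟩ := hk2 η hη
  have hgu : UniformContinuous g := hcs.uniformContinuous_of_continuous hg
  obtain ⟨δ₂, hδ₂, hd2⟩ := Metric.uniformContinuous_iff.1 hgu η hη
  -- the cells
  obtain ⟨N, c, hc, hcN, hcd⟩ := exists_cells (closedBall (0 : E n) R)
    (isCompact_closedBall _ _) (lt_min hδ₁ hδ₂)
  have hcN' : ∀ z ∈ ball (0 : E n) R, c z < N := fun z hz => hcN z (ball_subset_closedBall hz)
  set Q : ℕ → Set (E n) := fun i => c ⁻¹' {i} ∩ B with hQ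
  have hQm : ∀ i, MeasurableSet (Q i) := fun i =>
    (hc (measurableSet_singleton i)).inter measurableSet_ball
  have hQt : ∀ i, volume (Q i) ≠ ⊤ := fun i =>
    ((measure_mono inter_subset_right).trans_lt measure_ball_lt_top).ne
  have hgT : Integrable fun z => g z * T z := by
    have h1 : Integrable g := hg.integrable_of_hasCompactSupport hcs
    refine h1.mul_bdd (c := C) hT.aestronglyMeasurable (Eventually.of_forall fun z => ?_)
    rw [Real.norm_eq_abs]
    exact hC z
  -- the points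
  have hch : ∀ i, ∃ z, volume (Q i) ≠ 0 → z ∈ Q i ∧ LebPt T z ∧
      (⨍ x in Q i, g x * T x) ≤ g z * T z := by
    intro i
    by_cases h0 : volume (Q i) = 0
    · exact ⟨0, fun h => absurd h0 h⟩
    · have h1 := measure_setAverage_le_pos h0 (hQt i) (hgT.integrableOn (s := Q i))
      have h2 : volume {z : E n | ¬ LebPt T z} = 0 := ae_lebPt hT hC
      rw [← measure_sdiff_null h2] at h1
      obtain ⟨z, hz1, hz2⟩ := nonempty_of_measure_ne_zero h1.ne'
      exact ⟨z, fun _ => ⟨hz1.1, not_not.1 hz2, hz1.2⟩⟩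
  choose pt hpt using hch
  set I : Finset ℕ := (Finset.range N).filter fun i => volume (Q i) ≠ 0 with hI
  have hIv : ∀ i ∈ I, volume (Q i) ≠ 0 := fun i hi => (Finset.mem_filter.1 hi).2
  have hcpt : ∀ i ∈ I, c (pt i) = i := fun i hi => (hpt i (hIv i hi)).1.1
  have hinj : Set.InjOn pt (I : Set ℕ) := by
    intro i hi j hj hij
    rw [← hcpt i hi, ← hcpt j hj, hij]
  set w : E n → ℝ := fun z => g z * volume.real (Q (c z)) with hw
  have hsum : ∀ Φ : ℕ → E n, (∀ i, i ∉ I → i < N → volume.real (Q i) • Φ i = 0) := by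
    intro Φ i hi hiN
    have h0 : volume (Q i) = 0 := by
      by_contra h
      exact hi (Finset.mem_filter.2 ⟨Finset.mem_range.2 hiN, h⟩)
    rw [measureReal_def, h0, ENNReal.toReal_zero, zero_smul]
  -- integrals of functions which are constant on the cells
  have hstep : ∀ Φ : ℕ → E n, ∫ z in B, Φ (c z) = ∑ i ∈ I, volume.real (Q i) • Φ i := by
    intro Φ
    have hi : IntegrableOn (fun z => Φ (c z)) B := by
      have hm : Measurable fun z => Φ (c z) := (measurable_from_nat (f := Φ)).comp hc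
      refine Integrable.mono' (integrable_const (∑ i ∈ Finset.range N, ‖Φ i‖))
        hm.aestronglyMeasurable ?_
      filter_upwards [ae_restrict_mem measurableSet_ball] with z hz
      exact Finset.single_le_sum (f := fun i => ‖Φ i‖) (fun _ _ => norm_nonneg _)
        (Finset.mem_range.2 (hcN' z hz))
    rw [cells_integral hc hcN' _ hi]
    have h1 : ∀ i ∈ Finset.range N, ∫ z in c ⁻¹' {i} ∩ ball 0 R, Φ (c z) =
        volume.real (Q i) • Φ i := by
      intro i _
      rw [← setIntegral_const]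
      refine setIntegral_congr_fun (hQm i) fun z hz => ?_
      have h2 : c z = i := hz.1
      show Φ (c z) = Φ i
      rw [h2]
    rw [Finset.sum_congr rfl h1]
    refine (Finset.sum_subset (Finset.filter_subset _ _) fun i hi hiI => ?_).symm
    exact hsum Φ i hiI (Finset.mem_range.1 hi)
  have hws : ∀ {F : Type} [AddCommGroup F] [Module ℝ F] (Φ : E n → F),
      ∑ z ∈ I.image pt, w z • Φ z = ∑ i ∈ I, (g (pt i) * volume.real (Q i)) • Φ (pt i) := by
    intro F _ _ Φ
    rw [Finset.sum_image fun i hi j hj hij => hinj hi hj hij]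
    refine Finset.sum_congr rfl fun i hi => ?_
    simp only [hw]
    rw [hcpt i hi]
  refine ⟨I.image pt, w, ?_, ?_, ?_, ?_⟩
  · intro z hz
    obtain ⟨i, hi, rfl⟩ := Finset.mem_image.1 hz
    exact (hpt i (hIv i hi)).1.2
  · intro z hz
    obtain ⟨i, hi, rfl⟩ := Finset.mem_image.1 hz
    exact (hpt i (hIv i hi)).2.1
  · -- the kernels
    set Θ₁ : E n → E n → E n := fun z x => g (pt (c z)) • ker (pt (c z)) x with hΘ₁
    set Θ₂ : E n → E n → E n := fun z x => g z • ker z x with hΘ₂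
    have hptm : Measurable fun z => pt (c z) := (measurable_from_nat (f := pt)).comp hc
    have m2 : Measurable fun r : E n × E n => Θ₂ r.1 r.2 :=
      (hg.measurable.comp measurable_fst).smul ker_meas
    have m1 : Measurable fun r : E n × E n => Θ₁ r.1 r.2 :=
      m2.comp ((hptm.comp measurable_fst).prodMk measurable_snd)
    have hgood : ∀ᵐ z ∂μ, z ∈ B ∧ volume (Q (c z)) ≠ 0 := by
      have h1 : ∀ᵐ z ∂μ, ∀ i, c z = i → volume (Q i) ≠ 0 := by
        rw [ae_all_iff]
        intro i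
        by_cases h0 : volume (Q i) = 0
        · rw [hμ, ae_restrict_iff' measurableSet_ball]
          have h2 : ∀ᵐ z : E n, z ∉ Q i := measure_eq_zero_iff_ae_notMem.1 h0
          filter_upwards [h2] with z hz hzB hci
          exact absurd ⟨hci, hzB⟩ hz
        · exact Eventually.of_forall fun z _ => h0
      filter_upwards [h1, ae_restrict_mem measurableSet_ball] with z hz hzB
      exact ⟨hzB, hz _ rfl⟩
    have b2 : ∀ᵐ z ∂μ, eLpNorm (Θ₂ z) q μ ≤ ENNReal.ofReal (M * Ck) := by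
      filter_upwards [hgood] with z hz
      have h1 : eLpNorm (Θ₂ z) q μ = ‖g z‖ₑ * eLpNorm (ker z) q μ :=
        eLpNorm_const_smul (g z) (ker z) q μ
      rw [h1, ENNReal.ofReal_mul hM0]
      refine mul_le_mul' ?_ (hker1 z (mem_ball_zero_iff.1 hz.1).le)
      rw [← ofReal_norm]
      exact ENNReal.ofReal_le_ofReal (hM z)
    have b1 : ∀ᵐ z ∂μ, eLpNorm (Θ₁ z) q μ ≤ ENNReal.ofReal (M * Ck) := by
      filter_upwards [hgood] with z hz
      have hz' := (hpt (c z) hz.2).1.2
      have h1 : eLpNorm (Θ₁ z) q μ = ‖g (pt (c z))‖ₑ * eLpNorm (ker (pt (c z))) q μ :=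
        eLpNorm_const_smul (g (pt (c z))) (ker (pt (c z))) q μ
      rw [h1, ENNReal.ofReal_mul hM0]
      refine mul_le_mul' ?_ (hker1 _ (mem_ball_zero_iff.1 hz').le)
      rw [← ofReal_norm]
      exact ENNReal.ofReal_le_ofReal (hM _)
    have i1 := ae_integrable hp1 m1 b1 ENNReal.ofReal_ne_top
    have i2 := ae_integrable hp1 m2 b2 ENNReal.ofReal_ne_top
    have b3 : ∀ᵐ z ∂μ, eLpNorm (fun x => Θ₁ z x - Θ₂ z x) q μ ≤
        ENNReal.ofReal (M * η + η * Ck) := by
      filter_upwards [hgood] with z hz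
      obtain ⟨hz1, hz2⟩ := hz
      obtain ⟨⟨hz3, hz4⟩, -, -⟩ := hpt (c z) hz2
      have hz5 : ‖z‖ ≤ R := (mem_ball_zero_iff.1 hz1).le
      have hz6 : ‖pt (c z)‖ ≤ R := (mem_ball_zero_iff.1 hz4).le
      have hd : dist (pt (c z)) z < min δ₁ δ₂ :=
        hcd _ (mem_closedBall_zero_iff.2 hz6) _ (mem_closedBall_zero_iff.2 hz5) hz3
      have e1 : (fun x => Θ₁ z x - Θ₂ z x) =
          (g (pt (c z)) • fun x => ker (pt (c z)) x - ker z x) +
            (g (pt (c z)) - g z) • ker z := by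
        funext x
        show g (pt (c z)) • ker (pt (c z)) x - g z • ker z x =
          g (pt (c z)) • (ker (pt (c z)) x - ker z x) + (g (pt (c z)) - g z) • ker z x
        rw [smul_sub, sub_smul]
        abel
      rw [e1]
      refine (eLpNorm_add_le (((hk1 _).1.sub (hk1 _).1).const_smul _)
        ((hk1 _).1.const_smul _) hq1).trans ?_
      rw [eLpNorm_const_smul, eLpNorm_const_smul, ENNReal.ofReal_add (by positivity)
        (by positivity), ENNReal.ofReal_mul hM0, ENNReal.ofReal_mul hη.le]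
      refine add_le_add (mul_le_mul' ?_ (hd1 _ _ hz6 hz5 (hd.trans_le (min_le_left _ _))))
        (mul_le_mul' ?_ (hker1 z hz5))
      · rw [← ofReal_norm]
        exact ENNReal.ofReal_le_ofReal (hM _)
      · rw [← ofReal_norm]
        refine ENNReal.ofReal_le_ofReal ?_
        have := hd2 (hd.trans_le (min_le_right _ _))
        rw [Real.dist_eq] at this
        exact this.le
    have m3 : Measurable fun r : E n × E n => Θ₁ r.1 r.2 - Θ₂ r.1 r.2 := m1.sub m2
    have b4 := eLp_integral hp1 m3 b3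
    have e2 : (fun x => (∑ z ∈ I.image pt, w z • ker z x) - ∫ z, g z • ker z x) =ᵐ[μ]
        fun x => ∫ z, (Θ₁ z x - Θ₂ z x) ∂μ := by
      filter_upwards [i1, i2] with x hx1 hx2
      rw [integral_sub hx1 hx2, hws]
      congr 1
      · rw [hμ]
        rw [hstep fun i => g (pt i) • ker (pt i) x]
        refine Finset.sum_congr rfl fun i _ => ?_
        rw [smul_smul, mul_comm]
      · rw [hμ]
        refine (setIntegral_eq_integral_of_forall_compl_eq_zero fun z hz => ?_).symm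
        have h0 : g z = 0 := image_eq_zero_of_notMem_tsupport fun h => hz (hgs h)
        rw [h0, zero_smul]
    rw [eLpNorm_congr_ae e2]
    refine b4.trans ?_
    have e3 : μ univ = ENNReal.ofReal V := by
      rw [hV, measureReal_def, ENNReal.ofReal_toReal (measure_ne_top _ _)]
    rw [e3, ← ENNReal.ofReal_mul hV0]
    exact ENNReal.ofReal_le_ofReal hηε
  · have e1 : ∫ z, g z * T z = ∫ z in B, g z * T z := by
      refine (setIntegral_eq_integral_of_forall_compl_eq_zero fun z hz => ?_).symm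
      have h0 : g z = 0 := image_eq_zero_of_notMem_tsupport fun h => hz (hgs h)
      rw [h0, zero_mul]
    rw [e1, cells_integral hc hcN' _ hgT.integrableOn]
    have h2 : ∑ i ∈ Finset.range N, ∫ z in c ⁻¹' {i} ∩ ball 0 R, g z * T z =
        ∑ i ∈ I, ∫ z in Q i, g z * T z := by
      refine (Finset.sum_subset (Finset.filter_subset _ _) fun i hi hiI => ?_).symm
      have h0 : volume (Q i) = 0 := by
        by_contra h
        exact hiI (Finset.mem_filter.2 ⟨hi, h⟩)
      exact setIntegral_measure_zero _ h0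
    rw [h2]
    have h3 := hws (F := ℝ) T
    simp only [smul_eq_mul] at h3
    rw [h3]
    refine Finset.sum_le_sum fun i hi => ?_
    have h4 := (hpt i (hIv i hi)).2.2
    rw [setAverage_eq, smul_eq_mul] at h4
    have h5 : 0 < volume.real (Q i) := by
      rw [measureReal_def]
      exact ENNReal.toReal_pos (hIv i hi) (hQt i)
    rw [inv_mul_le_iff₀ h5] at h4
    calc ∫ z in Q i, g z * T z ≤ volume.real (Q i) * (g (pt i) * T (pt i)) := h4
      _ = g (pt i) * volume.real (Q i) * T (pt i) := by ring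

/-! ### The limit -/

theorem TY.neg {a : E n → E n → E n} {T : E n → ℝ} {Y : E n → E n} {R' : ℝ}
    (h : TY p a T Y R') : TY p a (fun z => -T z) (fun z => -Y z) R' := by
  obtain ⟨h1, ⟨C, hC⟩, h3, h4, h5, h6⟩ := h
  refine ⟨h1.neg, ⟨C, fun z => by rw [abs_neg]; exact hC z⟩, h3.neg, h4, fun z hz => ?_, ?_⟩
  · obtain ⟨h7, h8⟩ := h5 z hz
    rw [h7, h8]
    simp
  · intro V u U ψ hV hu hU hE hψ
    have h7 := h6 V u U ψ hV hu hU hE hψ
    have h8 : ∀ z, (⟪a z (U z), -T z • ∇ ψ z + ψ z • -Y z⟫ : ℝ) =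
        -⟪a z (U z), T z • ∇ ψ z + ψ z • Y z⟫ := by
      intro z
      rw [← inner_neg_right]
      congr 1
      rw [neg_smul, smul_neg, neg_add]
    simp only [h8]
    rw [integral_neg, h7, neg_zero]

theorem riem_le (hsolve : SolveStatement) (hscont : ScontStatement) (hker : KerStatement)
    (hpole : PoleStatement) {a : E n → E n → E n} {α β R' : ℝ} {g : E n → ℝ} {u : E n → ℝ}
    {U : E n → E n} {T : E n → ℝ} {Y : E n → E n} (hn : 2 ≤ n) (hp : (n : ℝ) < p)
    (hop : Op p volume a α β) (hTY : TY p a T Y R') (hRR : R' < R) (hg : Continuous g)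
    (hgs : tsupport g ⊆ ball 0 R) (hS : Sol p a R (fun x => ∫ z, g z • ker z x) u U) :
    ∫ z, g z * T z ≤ ∫ x, ⟪a x (U x), Y x⟫ := by
  have hn' : (2 : ℝ) ≤ n := by exact_mod_cast hn
  have hp1 : 1 < p := by linarith
  have hR : 0 < R := hTY.hR.trans hRR
  obtain ⟨C, hC⟩ := hTY.bdd
  have hj : ∀ j : ℕ, (0 : ℝ) < 1 / ((j : ℝ) + 1) := fun j => by positivity
  have hr := fun j : ℕ => riemann hker hn hp hR hg hgs hTY.measT hC (hj j)
  choose s w h1 h2 h3 h4 using hr
  obtain ⟨hk1, -, -, -⟩ := hker n p R hn hp hR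
  set q := ENNReal.ofReal (dx p) with hq
  have hq1 : 1 ≤ q := by
    rw [hq, ← ENNReal.ofReal_one]
    exact ENNReal.ofReal_le_ofReal (dx_one hp1).le
  set μ := volume.restrict (ball (0 : E n) R) with hμ
  set Hs : ℕ → E n → E n := fun j x => ∑ z ∈ s j, w j z • ker z x with hHs
  set H : E n → E n := fun x => ∫ z, g z • ker z x with hH
  have hHsL : ∀ j, MemLp (Hs j) q μ := by
    intro j
    have h5 := memLp_finsetSum' (s j) fun z (_ : z ∈ s j) => (hk1 z).const_smul (w j z)
    have e : Hs j = ∑ i ∈ s j, w j i • ker i := by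
      funext x
      simp [hHs]
    rw [e]
    exact h5
  have hHm : AEStronglyMeasurable H μ := by
    have hm : Measurable fun r : E n × E n => g r.1 • ker r.1 r.2 :=
      (hg.measurable.comp measurable_fst).smul ker_meas
    exact (hm.stronglyMeasurable.integral_prod_left' (μ := volume)).aestronglyMeasurable
  have hHL : MemLp H q μ := by
    have h5 : MemLp (fun x => Hs 0 x - H x) q μ :=
      ⟨(hHsL 0).1.sub hHm, (h3 0).trans_lt ENNReal.ofReal_lt_top⟩
    have h6 := (hHsL 0).sub h5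
    have e : H = Hs 0 - fun x => Hs 0 x - H x := by
      funext x
      simp
    rw [e]
    exact h6
  have hlim : Tendsto (fun j => eLpNorm (fun x => Hs j x - H x) q μ) atTop (𝓝 0) := by
    refine tendsto_of_tendsto_of_tendsto_of_le_of_le tendsto_const_nhds
      (h := fun j : ℕ => ENNReal.ofReal (1 / ((j : ℝ) + 1))) ?_ (fun _ => zero_le) h3
    have h7 := ENNReal.tendsto_ofReal tendsto_one_div_add_atTop_nhds_zero_nat
    rwa [ENNReal.ofReal_zero] at h7
  have hsol : ∀ j, ∃ uU : (E n → ℝ) × (E n → E n), Sol p a R (Hs j) uU.1 uU.2 := by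
    intro j
    obtain ⟨u', U', hu'⟩ := hsolve n p a α β R (Hs j) (by omega) hp hop hR (hHsL j)
    exact ⟨(u', U'), hu'⟩
  choose uU huU using hsol
  have hfin := hscont n p a α β R H Hs u U (fun j => (uU j).1) (fun j => (uU j).2) Y (by omega)
    hp hop hR hHL hHsL hlim hS huU hTY.memY
  refine ge_of_tendsto' hfin fun j => ?_
  have h8 := hpole n p a α β R R' (s j) (w j) _ _ T Y hn hp hop hTY hRR (h1 j) (h2 j) (huU j)
  rw [h8]
  exact h4 j

/-- **RIEM** -/
theorem riem (hsolve : SolveStatement) (hscont : ScontStatement) (hker : KerStatement)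
    (hpole : PoleStatement) : RiemStatement := by
  intro n p a α β R R' g u U T Y hn hp hop hTY hRR hg hgs hS
  refine le_antisymm ?_ (riem_le hsolve hscont hker hpole hn hp hop hTY hRR hg hgs hS)
  have h := riem_le hsolve hscont hker hpole hn hp hop (TY.neg hTY) hRR hg hgs hS
  simp only [mul_neg, inner_neg_right] at h
  rw [integral_neg, integral_neg] at h
  linarith

end Pool.Agent.Lib.MP_abd978_an.UN.H36



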